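import Pool.Agent.H78.D3.Cnt
import Pool.Agent.H78.D3T.Tp
import Pool.Agent.H78.D3T.Tm

/-!
# Double ties without overlaps, no wrap, `w ≤ h`, `W < D`
-/

namespace Pool.Agent.H78.D3

open Finset
open Pool.Agent.H98.Flat
open Pool.Agent.H67.Flat
open Pool.Agent.H78.RT
open Pool.Agent.H78.Tie
open Pool.Agent.H78.Tie.TAp
open Pool.Agent.H23.DT
open Pool.Agent.H81.AP (LF dot dot_nil dot_nil' dot_cons AllNn AllNe)
open Pool.Agent.H78.D3T

variable {A : TAp} {T T' : A.Tie} {om wr : ℤ}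

/-- a checked tree with the class `K` -/
theorem runK (d : DD A T T' om 0) (hn : T.NoOvD) {sp : Bool} (hsg : A.sg = sgv sp) {g : List LF}
    {j U S θ : ℤ} (hc : IsC A j U S θ) (hg : AllNn (env A T [θ, S, U]) g)
    {t : Pool.Agent.H78.RT.T}
    (h : (mkD sp om 0 [⟨[0, 0, 0, 0, 0, 0, 0, 0, 0, 0, 0, 1], [0, 0, 0, 0, 0, 0, 0, 0, 0, 0, 1],
      [0, 0, 0, 0, 0, 0, 0, 0, 0, 1]⟩] g [] true).chk t = true) : False := by
  refine d.run hsg (r := [θ, S, U]) (ne := []) (J := [⟨[0, 0, 0, 0, 0, 0, 0, 0, 0, 0, 0, 1],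
    [0, 0, 0, 0, 0, 0, 0, 0, 0, 0, 1], [0, 0, 0, 0, 0, 0, 0, 0, 0, 1]⟩]) ⟨⟨j, ?_⟩, trivial⟩ hg
    trivial (fun _ => hn) h
  unfold LR.Cl env
  simp only [dot_cons, dot_nil]
  convert hc using 1 <;> ring

/-- the facts on the class `K`, `om = 1` -/
structure KP (A : TAp) (T T' : A.Tie) (j U S θ lam : ℤ) (v u : ℤ) : Prop where
  c : IsC A j U S θ
  th0 : 0 < θ
  th1 : θ < A.D
  s0 : -(A.q * (A.h : ℤ)) ≤ S
  s1 : S ≤ A.q * A.w - A.q - A.q * A.h
  v0 : -(A.q * (A.h : ℤ)) < v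
  v1 : v < -(A.q * T.x + A.q * A.h)
  v2 : 0 < v + lam
  u0 : A.q * (A.w : ℤ) - (1 - A.sg) / 2 ≤ u

theorem kp (d : DD A T T' 1 0) (hn : T.NoOvD) :
    ∃ j U S θ,
      (KP A T T' j U S θ A.D (U + S) U ∧ θ < th A A.q - th A T.t ∧
        2 * th A A.q - 2 * A.D - th A T.t < θ) ∨
      (KP A T T' j U S θ (2 * A.D) (U + S) U ∧ θ < th A A.q - th A T.t ∧
        θ ≤ 2 * th A A.q - 2 * A.D - th A T.t) ∨
      (KP A T T' j U S θ A.D (U + S - A.D) (U - A.D) ∧ th A A.q - th A T.t < θ ∧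
        2 * th A A.q - A.D - th A T.t < θ) ∨
      (KP A T T' j U S θ (2 * A.D) (U + S - A.D) (U - A.D) ∧ th A A.q - th A T.t < θ ∧
        θ ≤ 2 * th A A.q - A.D - th A T.t) := by
  have hp := A.p_pos'
  have hq := A.q_pos'
  have S := T.scD T' d.ht hn
  have hom : A.om = 1 := d.hom
  have e2 := d.e2
  have t0 := T.t0
  have tp := T.tp
  have t0' := T'.t0
  have tp' := T'.tp
  have hte := d.ht
  have hx := d.hx
  have x0 : 0 < T'.x := by have := d.y0; omega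
  have x1 : T'.x < A.h := by have := d.y1; omega
  have pq : (A.p : ℤ) < A.q := by exact_mod_cast A.pq
  obtain ⟨i, r, i0, i1, rX, rH, rXs, hU, he1, -, hW⟩ := Kcls d.F S T' x0 x1
    (l := A.p - 1 - T'.t) (by omega) (by omega) (by rw [e2]; omega) (by rw [e2]; omega)
  set k := A.e * (A.p - 1 - T'.t) - A.h + i with hk
  have κ0 := A.ix_nonneg k
  have κ1 := A.ix_lt k
  obtain ⟨l1, l2⟩ := ell_p (A := A) hom (by omega) k
  have kr := A.ix_row k
  set κ := A.ix k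
  have W2 := W2 A
  have NH := NH A
  have NW := NW A
  have q6 := q6 A
  have iq0 : 0 ≤ (A.q : ℤ) * i := mul_nonneg hq.le i0
  have iq1 : (A.q : ℤ) * (i + 1) ≤ A.q * A.w := mul_le_mul_of_nonneg_left (by omega) hq.le
  rw [mul_add, mul_one] at iq1
  have xq0 : (A.q : ℤ) * 1 ≤ A.q * T'.x := mul_le_mul_of_nonneg_left (by omega) hq.le
  have hxq : A.q * T'.x = A.q * T.x + A.q * A.h := by
    rw [hx]; ring
  have hsg := A.hsg
  have rs : (A.p : ℤ) ∣ A.e * κ - A.e * (A.p - 1 - T'.t) - (i - A.h) := by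
    obtain ⟨z, hz⟩ := kr
    exact ⟨z, by rw [hk] at hz; linear_combination hz⟩
  have e3 : (A.q : ℤ) * (i - A.h) = A.q * i - A.q * A.h := by ring
  rcases relC (by omega) (by omega) κ0 κ1 hU rs (by omega) (by omega) with ⟨h1, hc⟩ | ⟨h1, hc⟩
  · -- `κ < p - 1`
    have hne : κ - (A.p - 1 - T'.t) ≠ T'.t := by
      intro h
      have h3 := T'.tie
      rw [e2] at h3
      have h4 := hc.1.1
      rw [h] at h4
      have h5 := dvd_sub h3 h4
      rw [show A.a * T'.t - -1 * (A.q * A.w + A.sg)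
        - (A.a * T'.t - (A.q * A.h - A.q * i - 1 - r))
        = A.q * A.h - A.q * i - 1 - r + (A.q * A.w + A.sg) by ring] at h5
      unfold NN at NH NW
      exact SC.ndvd (by omega) (by omega) h5
    have lt1 := th_lt A (show κ - (A.p - 1 - T'.t) < T'.t by omega)
    rw [d.th'] at lt1
    have p0 := th_pos A hc.2.1
    have p1 := th_ltD A hc.2.2
    rcases le_or_gt (A.q - A.p : ℤ) κ with h2 | h2
    · have h3 := l1 h2
      have lt2 := th_lt A (show 2 * A.q - 2 * A.p - T.t < κ - (A.p - 1 - T'.t) by omega)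
      rw [th_sub, th_sub, th_mul, th_mul, th_p] at lt2
      exact ⟨_, _, _, _, Or.inl ⟨⟨hc, p0, p1, by omega, by omega, by omega, by omega, by omega,
        by omega⟩, lt1, lt2⟩⟩
    · have h3 := (l2 h2).1
      have lt2 : th A (κ - (A.p - 1 - T'.t)) ≤ 2 * th A A.q - 2 * A.D - th A T.t := by
        rcases eq_or_lt_of_le (show κ - (A.p - 1 - T'.t) ≤ 2 * A.q - 2 * A.p - T.t by omega)
          with h4 | h4
        · rw [h4, th_sub, th_sub, th_mul, th_mul, th_p]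
        · have := th_lt A h4
          rw [th_sub A (2 * A.q - 2 * A.p) T.t, th_sub A (2 * A.q) (2 * A.p), th_mul, th_mul,
            th_p] at this
          exact this.le
      exact ⟨_, _, _, _, Or.inr (Or.inl ⟨⟨hc, p0, p1, by omega, by omega, by omega, by omega,
        by omega, by omega⟩, lt1, lt2⟩)⟩
  · have lt1 := th_lt A (show T'.t < κ - (A.p - 1 - T'.t) + A.p by omega)
    rw [d.th'] at lt1
    have p0 := th_pos A hc.2.1
    have p1 := th_ltD A hc.2.2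
    rcases le_or_gt (A.q - A.p : ℤ) κ with h2 | h2
    · have h3 := l1 h2
      have lt2 := th_lt A (show 2 * A.q - A.p - T.t < κ - (A.p - 1 - T'.t) + A.p by omega)
      rw [th_sub A (2 * A.q - A.p) T.t, th_sub A (2 * A.q) A.p, th_mul, th_p] at lt2
      exact ⟨_, _, _, _, Or.inr (Or.inr (Or.inl ⟨⟨hc, p0, p1, by omega, by omega, by omega,
        by omega, by omega, by omega⟩, lt1, lt2⟩))⟩
    · have h3 := (l2 h2).1
      have lt2 : th A (κ - (A.p - 1 - T'.t) + A.p) ≤ 2 * th A A.q - A.D - th A T.t := by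
        rcases eq_or_lt_of_le (show κ - (A.p - 1 - T'.t) + A.p ≤ 2 * A.q - A.p - T.t by omega)
          with h4 | h4
        · rw [h4, th_sub, th_sub, th_mul, th_p]
        · have := th_lt A h4
          rw [th_sub A (2 * A.q - A.p) T.t, th_sub A (2 * A.q) A.p, th_mul, th_p] at this
          exact this.le
      exact ⟨_, _, _, _, Or.inr (Or.inr (Or.inr ⟨⟨hc, p0, p1, by omega, by omega, by omega,
        by omega, by omega, by omega⟩, lt1, lt2⟩))⟩

/-- static facts, `om = 1` -/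
theorem statP (d : DD A T T' 1 0) (hn : T.NoOvD) :
    A.q * (A.w : ℤ) ≤ A.q * T.x + A.q * A.h ∧ A.q * (A.w : ℤ) ≤ -(A.q * T.x) := by
  have hq := A.q_pos'
  have h1 := d.Kx hn
  have h2 := d.Ky hn
  have hx := d.hx
  have a1 := mul_le_mul_of_nonneg_left (show (A.w : ℤ) ≤ T.x + A.h by omega) hq.le
  have a2 := mul_le_mul_of_nonneg_left (show (A.w : ℤ) ≤ -T.x by omega) hq.le
  rw [mul_add] at a1
  rw [mul_neg] at a2
  exact ⟨a1, a2⟩

/-- static facts, `om = -1` -/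
theorem statM (d : DD A T T' (-1) 0) (hn : T.NoOvD) :
    A.q * (A.w : ℤ) ≤ A.q * T.x ∧ A.q * (A.w : ℤ) ≤ A.q * A.h - A.q * T.x := by
  have hq := A.q_pos'
  have h1 := d.Kx hn
  have h2 := d.Ky hn
  have hx := d.hx
  have a1 := mul_le_mul_of_nonneg_left (show (A.w : ℤ) ≤ T.x by omega) hq.le
  have a2 := mul_le_mul_of_nonneg_left (show (A.w : ℤ) ≤ A.h - T.x by omega) hq.le
  rw [mul_sub] at a2
  exact ⟨a1, a2⟩

/-- `W + 2 ≤ D` -/
theorem Dg (d : DD A T T' om wr) (hD : A.q * (A.w : ℤ) < A.D) : A.q * (A.w : ℤ) + 2 ≤ A.D := by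
  rcases d.Dgen A.w with h | h <;> omega

theorem pos_p (d : DD A T T' 1 0) (hn : T.NoOvD) (hD : A.q * (A.w : ℤ) < A.D)
    (hs : A.sg = 1) : False := by
  have hsg : A.sg = sgv true := hs
  have hq := A.q_pos'
  obtain ⟨st1, st2⟩ := statP d hn
  have hD2 := Dg d hD
  have ne := two_D_ne A
  -- the counting fact
  have tp : 2 * A.D < A.q * A.h → A.D < 2 * th A A.q - 2 * th A T.t := by
    intro h
    have h1 := th_lt A (cnt d hn hD h)
    rwa [th_p, th_mul, d.th', mul_sub] at h1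
  -- the category
  have cat : A.q * A.h + 2 * (A.q * T.x) < 0 → A.q * A.h + 2 * (A.q * T.x) + A.q ≤ 0 := by
    intro h
    have e1 : (A.q : ℤ) * A.h + 2 * (A.q * T.x) = A.q * (A.h + 2 * T.x) := by ring
    rw [e1] at h ⊢
    have h1 : A.h + 2 * T.x < 0 := by
      by_contra hc
      have : 0 ≤ (A.q : ℤ) * (A.h + 2 * T.x) := mul_nonneg hq.le (by omega)
      omega
    have := mul_le_mul_of_nonneg_left (show A.h + 2 * T.x + 1 ≤ 0 by omega) hq.le
    rw [mul_add, mul_one, mul_zero] at this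
    exact this
  obtain ⟨j, U, S, θ, hk⟩ := kp d hn
  rcases hk with ⟨⟨c, k1, k2, k3, k4, k5, k6, k7, k8⟩, m1, m2⟩ |
    ⟨⟨c, k1, k2, k3, k4, k5, k6, k7, k8⟩, m1, m2⟩ |
    ⟨⟨c, k1, k2, k3, k4, k5, k6, k7, k8⟩, m1, m2⟩ |
    ⟨⟨c, k1, k2, k3, k4, k5, k6, k7, k8⟩, m1, m2⟩
  · rcases lt_or_gt_of_ne ne with h | h
    · have tp := tp h
      refine runK d hn hsg c ?_ k1lp_k
      simp only [k1lp_g, AllNn, env, dot_cons, dot_nil]
      refine ⟨?_, ?_, ?_, ?_, ?_, ?_, ?_, ?_, ?_, ?_, ?_, ?_, ?_, ?_, ?_, trivial⟩ <;> omega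
    · clear tp
      refine runK d hn hsg c ?_ k1hp_k
      simp only [k1hp_g, AllNn, env, dot_cons, dot_nil]
      refine ⟨?_, ?_, ?_, ?_, ?_, ?_, ?_, ?_, ?_, ?_, ?_, ?_, ?_, ?_, trivial⟩ <;> omega
  · rcases lt_or_gt_of_ne ne with h | h
    · have tp := tp h
      rcases lt_or_ge (A.q * A.h + 2 * (A.q * T.x)) 0 with h3 | h3
      · have cat := cat h3
        refine runK d hn hsg c ?_ k2c1lp_k
        simp only [k2c1lp_g, AllNn, env, dot_cons, dot_nil]
        refine ⟨?_, ?_, ?_, ?_, ?_, ?_, ?_, ?_, ?_, ?_, ?_, ?_, ?_, ?_, ?_, ?_, trivial⟩ <;> omega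
      · clear cat
        refine runK d hn hsg c ?_ k2c0p_k
        simp only [k2c0p_g, AllNn, env, dot_cons, dot_nil]
        refine ⟨?_, ?_, ?_, ?_, ?_, ?_, ?_, ?_, ?_, ?_, ?_, ?_, ?_, ?_, trivial⟩ <;> omega
    · clear tp
      refine runK d hn hsg c ?_ k2hp_k
      simp only [k2hp_g, AllNn, env, dot_cons, dot_nil]
      refine ⟨?_, ?_, ?_, ?_, ?_, ?_, ?_, ?_, ?_, ?_, ?_, ?_, ?_, ?_, trivial⟩ <;> omega
  · clear tp cat
    refine runK d hn hsg c ?_ k3p_k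
    simp only [k3p_g, AllNn, env, dot_cons, dot_nil]
    refine ⟨?_, ?_, ?_, ?_, ?_, ?_, ?_, ?_, ?_, ?_, ?_, ?_, ?_, trivial⟩ <;> omega
  · clear tp cat
    refine runK d hn hsg c ?_ k4p_k
    simp only [k4p_g, AllNn, env, dot_cons, dot_nil]
    refine ⟨?_, ?_, ?_, ?_, ?_, ?_, ?_, ?_, ?_, ?_, ?_, ?_, ?_, trivial⟩ <;> omega

theorem pos_m (d : DD A T T' 1 0) (hn : T.NoOvD) (hD : A.q * (A.w : ℤ) < A.D)
    (hs : A.sg = -1) : False := by
  have hsg : A.sg = sgv false := hs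
  have hq := A.q_pos'
  obtain ⟨st1, st2⟩ := statP d hn
  have hD2 := Dg d hD
  have ne := two_D_ne A
  -- the counting fact
  have tp : 2 * A.D < A.q * A.h → A.D < 2 * th A A.q - 2 * th A T.t := by
    intro h
    have h1 := th_lt A (cnt d hn hD h)
    rwa [th_p, th_mul, d.th', mul_sub] at h1
  -- the category
  have cat : A.q * A.h + 2 * (A.q * T.x) < 0 → A.q * A.h + 2 * (A.q * T.x) + A.q ≤ 0 := by
    intro h
    have e1 : (A.q : ℤ) * A.h + 2 * (A.q * T.x) = A.q * (A.h + 2 * T.x) := by ring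
    rw [e1] at h ⊢
    have h1 : A.h + 2 * T.x < 0 := by
      by_contra hc
      have : 0 ≤ (A.q : ℤ) * (A.h + 2 * T.x) := mul_nonneg hq.le (by omega)
      omega
    have := mul_le_mul_of_nonneg_left (show A.h + 2 * T.x + 1 ≤ 0 by omega) hq.le
    rw [mul_add, mul_one, mul_zero] at this
    exact this
  obtain ⟨j, U, S, θ, hk⟩ := kp d hn
  rcases hk with ⟨⟨c, k1, k2, k3, k4, k5, k6, k7, k8⟩, m1, m2⟩ |
    ⟨⟨c, k1, k2, k3, k4, k5, k6, k7, k8⟩, m1, m2⟩ |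
    ⟨⟨c, k1, k2, k3, k4, k5, k6, k7, k8⟩, m1, m2⟩ |
    ⟨⟨c, k1, k2, k3, k4, k5, k6, k7, k8⟩, m1, m2⟩
  · rcases lt_or_gt_of_ne ne with h | h
    · have tp := tp h
      refine runK d hn hsg c ?_ k1lm_k
      simp only [k1lm_g, AllNn, env, dot_cons, dot_nil]
      refine ⟨?_, ?_, ?_, ?_, ?_, ?_, ?_, ?_, ?_, ?_, ?_, ?_, ?_, ?_, ?_, trivial⟩ <;> omega
    · clear tp
      refine runK d hn hsg c ?_ k1hm_k
      simp only [k1hm_g, AllNn, env, dot_cons, dot_nil]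
      refine ⟨?_, ?_, ?_, ?_, ?_, ?_, ?_, ?_, ?_, ?_, ?_, ?_, ?_, ?_, trivial⟩ <;> omega
  · rcases lt_or_gt_of_ne ne with h | h
    · have tp := tp h
      rcases lt_or_ge (A.q * A.h + 2 * (A.q * T.x)) 0 with h3 | h3
      · have cat := cat h3
        refine runK d hn hsg c ?_ k2c1lm_k
        simp only [k2c1lm_g, AllNn, env, dot_cons, dot_nil]
        refine ⟨?_, ?_, ?_, ?_, ?_, ?_, ?_, ?_, ?_, ?_, ?_, ?_, ?_, ?_, ?_, ?_, trivial⟩ <;> omega
      · clear cat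
        refine runK d hn hsg c ?_ k2c0m_k
        simp only [k2c0m_g, AllNn, env, dot_cons, dot_nil]
        refine ⟨?_, ?_, ?_, ?_, ?_, ?_, ?_, ?_, ?_, ?_, ?_, ?_, ?_, ?_, trivial⟩ <;> omega
    · clear tp
      refine runK d hn hsg c ?_ k2hm_k
      simp only [k2hm_g, AllNn, env, dot_cons, dot_nil]
      refine ⟨?_, ?_, ?_, ?_, ?_, ?_, ?_, ?_, ?_, ?_, ?_, ?_, ?_, ?_, trivial⟩ <;> omega
  · clear tp cat
    refine runK d hn hsg c ?_ k3m_k
    simp only [k3m_g, AllNn, env, dot_cons, dot_nil]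
    refine ⟨?_, ?_, ?_, ?_, ?_, ?_, ?_, ?_, ?_, ?_, ?_, ?_, ?_, trivial⟩ <;> omega
  · clear tp cat
    refine runK d hn hsg c ?_ k4m_k
    simp only [k4m_g, AllNn, env, dot_cons, dot_nil]
    refine ⟨?_, ?_, ?_, ?_, ?_, ?_, ?_, ?_, ?_, ?_, ?_, ?_, ?_, trivial⟩ <;> omega

/-- the class `K`, `om = -1` -/
theorem km (d : DD A T T' (-1) 0) (hn : T.NoOvD) :
    ∃ j U S, IsC A j U S (th A j) ∧ 0 < th A j ∧ th A j < A.D ∧
      A.q * T.x - A.q * A.w - A.q * A.h ≤ S ∧ S + A.q ≤ A.q * T.x - A.q * A.h ∧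
      U + S < 0 ∧ A.q * T.x - A.q * A.h + A.sg < U + S ∧
      U + S ≤ A.q * T.x - A.q * A.h + 2 * A.D + A.sg ∧
      A.q * (A.w : ℤ) - (1 - A.sg) / 2 ≤ U - A.q * A.w - A.sg := by
  have hp := A.p_pos'
  have hq := A.q_pos'
  have S := T.scD T' d.ht hn
  have hom : A.om = -1 := d.hom
  have e1 := d.e1
  have t0 := T.t0
  have tp := T.tp
  have t0' := T'.t0
  have tp' := T'.tp
  have hte := d.ht
  have hx := d.hx
  have x0 : 0 < T.x := by have := d.x0; omega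
  have x1 : T.x < A.h := by have := d.x1; omega
  have pq : (A.p : ℤ) < A.q := by exact_mod_cast A.pq
  obtain ⟨i, r, i0, i1, rX, rH, rXs, hU, -, he2, hW⟩ := Kcls d.F S T x0 x1
    (l := T.t) (by omega) (by omega) (by rw [e1]; omega) (by rw [e1]; omega)
  set k := A.e * T.t - A.h + i with hk
  have κ0 := A.ix_nonneg k
  have κ1 := A.ix_lt k
  have l1 := ell_m (A := A) hom (by omega) k
  have kr := A.ix_row k
  set κ := A.ix k
  have W2 := W2 A
  have NH := NH A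
  have NW := NW A
  have q6 := q6 A
  have iq0 : 0 ≤ (A.q : ℤ) * i := mul_nonneg hq.le i0
  have iq1 : (A.q : ℤ) * (i + 1) ≤ A.q * A.w := mul_le_mul_of_nonneg_left (by omega) hq.le
  rw [mul_add, mul_one] at iq1
  have xq0 : (A.q : ℤ) * 1 ≤ A.q * T.x := mul_le_mul_of_nonneg_left (by omega) hq.le
  have hsg := A.hsg
  have hrec : Rec A κ (A.q * A.w + A.sg + (A.q * A.h - A.q * i - 1 - r))
      (A.q * (T.x - A.w + i - A.h)) (th A κ) := by
    refine Rec.of ?_ ?_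
    · have h3 := T.tie
      rw [e1, one_mul] at h3
      have := dvd_add hU h3
      rwa [show A.a * κ - A.a * T.t - (A.q * A.h - A.q * i - 1 - r)
        + (A.a * T.t - (A.q * A.w + A.sg))
        = A.a * κ - (A.q * A.w + A.sg + (A.q * A.h - A.q * i - 1 - r)) by ring] at this
    · obtain ⟨z, hz⟩ := kr
      obtain ⟨z', hz'⟩ := T.row
      rw [e1, one_mul] at hz'
      exact ⟨z + z', by rw [hk] at hz; linear_combination hz + hz'⟩
  have κne : κ ≠ 0 := by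
    intro h
    have h3 := hrec.1
    rw [h, mul_zero, zero_sub, dvd_neg] at h3
    exact SC.ndvd (by omega) (by omega) h3
  have e3 : (A.q : ℤ) * (T.x - A.w + i - A.h) = A.q * T.x - A.q * A.w + A.q * i - A.q * A.h := by
    ring
  unfold NN at he2
  exact ⟨κ, _, _, ⟨hrec, by omega, κ1⟩, th_pos A (by omega), th_ltD A κ1, by omega, by omega,
    by omega, by omega, by omega, by omega⟩

theorem neg_p (d : DD A T T' (-1) 0) (hn : T.NoOvD) (hD : A.q * (A.w : ℤ) < A.D)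
    (h : A.q * (A.h : ℤ) < 2 * A.D) (hs : A.sg = 1) : False := by
  have hsg : A.sg = sgv true := hs
  have hq := A.q_pos'
  obtain ⟨st1, st2⟩ := statM d hn
  have hD2 := Dg d hD
  obtain ⟨j, U, S, c, k1, k2, k3, k4, k5, k6, k7, k8⟩ := km d hn
  refine runK d hn hsg c ?_ k0p_k
  simp only [k0p_g, AllNn, env, dot_cons, dot_nil]
  refine ⟨?_, ?_, ?_, ?_, ?_, ?_, ?_, ?_, ?_, ?_, ?_, ?_, trivial⟩ <;> omega

theorem neg_m (d : DD A T T' (-1) 0) (hn : T.NoOvD) (hD : A.q * (A.w : ℤ) < A.D)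
    (h : A.q * (A.h : ℤ) < 2 * A.D) (hs : A.sg = -1) : False := by
  have hsg : A.sg = sgv false := hs
  have hq := A.q_pos'
  obtain ⟨st1, st2⟩ := statM d hn
  have hD2 := Dg d hD
  obtain ⟨j, U, S, c, k1, k2, k3, k4, k5, k6, k7, k8⟩ := km d hn
  refine runK d hn hsg c ?_ k0m_k
  simp only [k0m_g, AllNn, env, dot_cons, dot_nil]
  refine ⟨?_, ?_, ?_, ?_, ?_, ?_, ?_, ?_, ?_, ?_, ?_, ?_, trivial⟩ <;> omega

/-- **(D3)** : double ties without overlaps, no wrap, `W < D` -/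
theorem D3a (d : DD A T T' om 0) (hn : T.NoOvD) (hD : A.q * (A.w : ℤ) < A.D) : False := by
  rcases d.om1 with rfl | rfl
  · rcases A.hsg with hs | hs
    · exact pos_p d hn hD hs
    · exact pos_m d hn hD hs
  · rcases lt_or_gt_of_ne (two_D_ne A) with h | h
    · exact countDbl d.F T T' d.ht (by rw [d.e1, d.e2]) d.hom hn h
    · rcases A.hsg with hs | hs
      · exact neg_p d hn hD h hs
      · exact neg_m d hn hD h hs

end Pool.Agent.H78.D3
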