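import Pool.Agent.H78.D3.KTap

/-!
# Double ties without overlaps, `om = 1`, `2 d < h`: counting in the columns gives `p < 2 t'`
-/

namespace Pool.Agent.H78.D3

open Finset
open Pool.Agent.H98.Flat
open Pool.Agent.H67.Flat
open Pool.Agent.H78.RT
open Pool.Agent.H78.Tie
open Pool.Agent.H78.Tie.TAp
open Pool.Agent.H23.DT

/-- another formula for `g` -/
theorem g_alt (C : Cfg) (y u : ℤ) : C.g y u
    = ∑ i ∈ range C.w, ph C.N (C.U (y + i) + C.W) (C.ell (y + i)) u
      + ∑ i ∈ range C.h, C.hor (y + i) u := by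
  have hN := C.N_pos
  have key : ∀ k, ph C.N (C.U k) (C.ell k) u + C.hor (k + C.h) u
      = C.hor k u + ph C.N (C.U k + C.W) (C.ell k) u := by
    intro k
    have h1 : C.hor (k + C.h) u = ph C.N (C.U k + C.ell k) C.W u := by
      unfold Cfg.hor
      apply ph_congr
      have := C.U_ell k
      rwa [show u - C.U (k + C.h) - (u - (C.U k + C.ell k)) = C.U k + C.ell k - C.U (k + C.h) by
        ring]
    rw [h1]
    unfold Cfg.hor
    rw [ph_eq_div hN (C.ell_nonneg k) (C.ell_lt k).le, ph_eq_div hN C.W_pos.le C.W_lt.le,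
      ph_eq_div hN C.W_pos.le C.W_lt.le, ph_eq_div hN (C.ell_nonneg k) (C.ell_lt k).le,
      show u - (C.U k + C.ell k) = u - C.U k - C.ell k by ring,
      show u - (C.U k + C.W) = u - C.U k - C.W by ring,
      show u - C.U k - C.W - C.ell k = u - C.U k - C.ell k - C.W by ring]
    ring
  have s1 : ∑ i ∈ range C.w, ph C.N (C.U (y + i)) (C.ell (y + i)) u
      + ∑ i ∈ range C.w, C.hor (y + C.h + i) u
      = ∑ i ∈ range C.w, C.hor (y + i) u
      + ∑ i ∈ range C.w, ph C.N (C.U (y + i) + C.W) (C.ell (y + i)) u := by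
    rw [← Finset.sum_add_distrib, ← Finset.sum_add_distrib]
    refine Finset.sum_congr rfl fun i _ => ?_
    rw [← key (y + i), show y + C.h + (i : ℤ) = y + i + C.h by ring]
  have s2 : ∑ i ∈ range C.w, C.hor (y + i) u + ∑ i ∈ range C.h, C.hor (y + C.w + i) u
      = ∑ i ∈ range C.h, C.hor (y + i) u + ∑ i ∈ range C.w, C.hor (y + C.h + i) u := by
    have h1 := Finset.sum_range_add (fun i : ℕ => C.hor (y + i) u) C.w C.h
    have h2 := Finset.sum_range_add (fun i : ℕ => C.hor (y + i) u) C.h C.w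
    rw [add_comm C.h C.w] at h2
    have h3 : ∀ i : ℕ, C.hor (y + ((C.w + i : ℕ) : ℤ)) u = C.hor (y + C.w + i) u := by
      intro i; push_cast; rw [add_assoc]
    have h4 : ∀ i : ℕ, C.hor (y + ((C.h + i : ℕ) : ℤ)) u = C.hor (y + C.h + i) u := by
      intro i; push_cast; rw [add_assoc]
    simp only [h3] at h1
    simp only [h4] at h2
    rw [← h1, h2]
  have s3 : C.g y u = ∑ i ∈ range C.w, ph C.N (C.U (y + i)) (C.ell (y + i)) u
      + ∑ i ∈ range C.h, C.hor (y + C.w + i) u := rfl
  linarith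

theorem nC_card (C : Cfg) (u : ℤ) :
    nC C u = (((range C.p).filter fun k : ℕ => C.hor k u = 1).card : ℤ) := by
  unfold nC
  rw [Finset.card_filter]
  push_cast
  refine Finset.sum_congr rfl fun k _ => ?_
  rcases C.hor01 k u with h | h
  · rw [h, if_neg (by norm_num)]
  · rw [h, if_pos rfl]

/-- a column with `2 ≤ g` at some level and short arcs meets at most `w` rectangles -/
theorem nC_le_w {C : Cfg} {sg : ℤ} (S : SC C sg) {u Y : ℤ} (hu : sg = 1 ∨ ¬ (C.p : ℤ) ∣ u)
    (fl : ∀ v Y, |Fq C Y u v| ≤ 1) (hell : ∀ k, C.ell k < C.H) (hg : 2 ≤ C.g Y u) :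
    nC C u ≤ C.w := by
  have G := S.G
  have hN := C.N_pos
  have hH := C.H_pos
  have hHN := C.H_lt
  rw [nC_card]
  -- above a rectangle there is a gap
  have R0 : ∀ k : ℤ, C.hor k u = 1 → C.R u (C.V k) = 0 := by
    intro k hk
    apply R_zero_of
    intro j hj
    have kv : C.ver k (C.V k - 1) = 1 := by
      apply S.ver_of (t := C.H - 1) _ (by omega) (by omega)
      rw [show C.V k - 1 - (C.V k - C.H + (C.H - 1)) = 0 by ring]
      exact dvd_zero _
    have kvn : C.ver k (C.V k) = 0 := by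
      apply S.ver_not (t := C.H) _ (by omega) (by omega)
      rw [show C.V k - (C.V k - C.H + C.H) = 0 by ring]
      exact dvd_zero _
    have jv := hj.2
    rw [show C.V k = C.V k - 1 + 1 by ring] at jv
    obtain ⟨y, y1, y2⟩ := C.near_ver G kv jv
    have hne : ¬ (C.p : ℤ) ∣ j - k := by
      intro h
      have := hj.2
      rw [C.ver_congr h (by simp : C.N ∣ C.V k - C.V k), kvn] at this
      omega
    obtain ⟨h1, h2⟩ := S.dj j k u y hne ⟨hj.1, y2⟩ ⟨hk, y1⟩
    rcases hu with h | h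
    · omega
    · exact h h2
  have H : ∀ k : ℕ, k ∈ (range C.p).filter (fun k : ℕ => C.hor k u = 1) → ∃ i : ℕ, i < C.w ∧
      ph C.N (C.V (Y + i)) (C.ell (Y + i)) (C.V k) = 1 := by
    intro k hk
    have hk2 := (Finset.mem_filter.1 hk).2
    have h0 := R0 k hk2
    have b1 := (abs_le.1 (fl (C.V k) Y)).1
    unfold Fq at b1
    rw [h0] at b1
    by_contra hc
    push Not at hc
    have : C.f Y (C.V k) = 0 := by
      unfold Cfg.f
      refine Finset.sum_eq_zero fun i hi => ?_
      have h3 := hc i (Finset.mem_range.1 hi)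
      have h4 := ph_nonneg C.N (C.V (Y + i)) (C.ell (Y + i)) (C.V k)
      have h5 := ph_le_one C.N (C.V (Y + i)) (C.ell (Y + i)) (C.V k)
      omega
    omega
  choose! f hf using H
  have hcard := Finset.card_le_card_of_injOn (s := (range C.p).filter (fun k : ℕ => C.hor k u = 1))
    (t := range C.w) f (fun k hk => Finset.mem_coe.2 (Finset.mem_range.2 (hf k hk).1)) ?_
  · rw [Finset.card_range] at hcard
    exact_mod_cast hcard
  -- injectivity
  have key : ∀ k k' : ℤ, C.hor k u = 1 → C.hor k' u = 1 → ∀ i : ℕ,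
      ph C.N (C.V (Y + i)) (C.ell (Y + i)) (C.V k) = 1 →
      ph C.N (C.V (Y + i)) (C.ell (Y + i)) (C.V k') = 1 →
      (C.V k - C.V (Y + i)) % C.N ≤ (C.V k' - C.V (Y + i)) % C.N → (C.p : ℤ) ∣ k' - k := by
    intro k k' hk hk' i h1 h2 h3
    have a0 := Int.emod_nonneg (C.V k - C.V (Y + i)) hN.ne'
    have ae := Int.emod_add_mul_ediv (C.V k - C.V (Y + i)) C.N
    have be := Int.emod_add_mul_ediv (C.V k' - C.V (Y + i)) C.N
    have b1 := ph_eq_one_iff.1 h2
    have hl := hell (Y + i)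
    set α := (C.V k - C.V (Y + i)) % C.N
    set β := (C.V k' - C.V (Y + i)) % C.N
    have hd : C.N ∣ C.V k - (C.V k' - (β - α)) :=
      ⟨(C.V k - C.V (Y + i)) / C.N - (C.V k' - C.V (Y + i)) / C.N, by
        linear_combination be - ae⟩
    rcases eq_or_lt_of_le h3 with h4 | h4
    · apply G.VV
      have := (dvd_neg).2 hd
      rwa [h4, sub_self, sub_zero, neg_sub] at this
    · exfalso
      have h5 : C.ver k' (C.V k) = 1 := by
        apply S.ver_of (t := C.H - (β - α)) _ (by omega) (by omega)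
        rwa [show C.V k - (C.V k' - C.H + (C.H - (β - α))) = C.V k - (C.V k' - (β - α)) by ring]
      have h6 := C.R_pos_of_In (k := k') (u := u) (v := C.V k) ⟨hk', h5⟩
      rw [R0 k hk] at h6
      omega
  intro k hk k' hk' hff
  have hk := Finset.mem_coe.1 hk
  have hk' := Finset.mem_coe.1 hk'
  obtain ⟨i1, i2⟩ := hf k hk
  obtain ⟨j1, j2⟩ := hf k' hk'
  rw [← hff] at j2
  obtain ⟨kr, kh⟩ := Finset.mem_filter.1 hk
  obtain ⟨kr', kh'⟩ := Finset.mem_filter.1 hk'
  have kr := Finset.mem_range.1 kr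
  have kr' := Finset.mem_range.1 kr'
  have hd : (C.p : ℤ) ∣ (k : ℤ) - k' := by
    rcases le_total ((C.V k - C.V (Y + (f k : ℕ))) % C.N) ((C.V k' - C.V (Y + (f k : ℕ))) % C.N)
      with h | h
    · have := (dvd_neg).2 (key k k' kh kh' (f k) i2 j2 h)
      rwa [neg_sub] at this
    · exact key k' k kh' kh (f k) j2 i2 h
  by_contra hne
  rcases lt_or_gt_of_ne hne with h | h
  · have : (C.p : ℤ) ∣ (k' : ℤ) - k := by
      have := (dvd_neg).2 hd
      rwa [neg_sub] at this
    exact SC.ndvd (by omega) (by omega) this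
  · exact SC.ndvd (by omega) (by omega) hd

/-- level with `2 ≤ g` for a column through the left rectangle of a pair -/
theorem g2R {C : Cfg} {sg : ℤ} (S : SC C sg) {a b x u : ℤ} (T : SC.TP C sg a b x) (hx : 0 < x)
    (hx' : x < C.h) (hu : sg = 1 ∨ ¬ (C.p : ℤ) ∣ u) (hell : ∀ k, C.W + 1 ≤ C.ell k)
    (ha : C.hor a u = 1) : 2 ≤ C.g (b - C.h) u := by
  have hN := C.N_pos
  have t1 := ph_eq_one_iff.1 ha
  have t0 := Int.emod_nonneg (u - C.U a) hN.ne'
  have te := Int.emod_add_mul_ediv (u - C.U a) C.N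
  set t := (u - C.U a) % C.N
  have hd : C.N ∣ u - (C.U b - (C.W + sg - t)) := by
    have h1 : C.N ∣ u - (C.U a + t) := ⟨(u - C.U a) / C.N, by linear_combination -te⟩
    have := dvd_add h1 T.hU
    rwa [show u - (C.U a + t) + (C.U a - (C.U b - C.W - sg)) = u - (C.U b - (C.W + sg - t)) by
      ring] at this
  have hs : 1 ≤ C.W + sg - t := by
    rcases S.hsg with h | h
    · omega
    · by_contra hc
      have h1 : C.W + sg - t = 0 := by omega
      rw [h1, sub_zero] at hd
      have h2 := (dvd_mul_right (C.p : ℤ) C.q).trans hd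
      have h3 := dvd_add h2 (S.res b)
      rw [sub_add_cancel] at h3
      rcases hu with h4 | h4
      · omega
      · exact h4 h3
  have hl := hell (b - C.h)
  have hln := C.ell_lt (b - C.h)
  have arc : ph C.N (C.U (b - C.h)) (C.ell (b - C.h)) u = 1 := by
    have h1 := C.U_ell (b - C.h)
    rw [sub_add_cancel] at h1
    have h2 : C.N ∣ u - (C.U (b - C.h) + (C.ell (b - C.h) - (C.W + sg - t))) := by
      have := dvd_sub hd h1
      rwa [show u - (C.U b - (C.W + sg - t)) - (C.U (b - C.h) + C.ell (b - C.h) - C.U b)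
        = u - (C.U (b - C.h) + (C.ell (b - C.h) - (C.W + sg - t))) + 2 * (C.U b - C.U b) by
          ring, sub_self, mul_zero, add_zero] at this
    have := S.hsg
    rw [ph_at h2 (by omega) (by omega), if_pos (by omega)]
  have s1 : 1 ≤ ∑ i ∈ range C.w, ph C.N (C.U (b - C.h + i)) (C.ell (b - C.h + i)) u := by
    have := Finset.single_le_sum
      (f := fun i : ℕ => ph C.N (C.U (b - C.h + i)) (C.ell (b - C.h + i)) u)
      (fun _ _ => ph_nonneg _ _ _ _) (Finset.mem_range.2 (C.hw))
    simp only [Nat.cast_zero, add_zero] at this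
    rwa [arc] at this
  have s2 : 1 ≤ ∑ i ∈ range C.h, ph C.N (C.U (b - C.h + C.w + i)) C.W u := by
    have := Finset.single_le_sum
      (f := fun i : ℕ => ph C.N (C.U (b - C.h + C.w + i)) C.W u)
      (fun _ _ => ph_nonneg _ _ _ _) (Finset.mem_range.2 (show ((C.h : ℤ) - x).toNat < C.h by omega))
    simp only [Int.toNat_of_nonneg (show 0 ≤ (C.h : ℤ) - x by omega)] at this
    rw [show b - C.h + C.w + ((C.h : ℤ) - x) = a by rw [T.row]; ring] at this
    unfold Cfg.hor at ha
    rwa [ha] at this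
  unfold Cfg.g
  omega

/-- level with `2 ≤ g` for a column through the right rectangle of a pair -/
theorem g2L {C : Cfg} {sg : ℤ} (S : SC C sg) {a b x u : ℤ} (T : SC.TP C sg a b x) (hx : 0 < x)
    (hx' : x < C.h) (hu : sg = 1 ∨ ¬ (C.p : ℤ) ∣ u) (hell : ∀ k, C.W + 1 ≤ C.ell k)
    (hb : C.hor b u = 1) : 2 ≤ C.g (b - x + 1) u := by
  have hN := C.N_pos
  have t1 := ph_eq_one_iff.1 hb
  have t0 := Int.emod_nonneg (u - C.U b) hN.ne'
  have te := Int.emod_add_mul_ediv (u - C.U b) C.N
  set t := (u - C.U b) % C.N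
  have hd : C.N ∣ u - (C.U b + t) := ⟨(u - C.U b) / C.N, by linear_combination -te⟩
  have hs : 0 ≤ t + sg := by
    rcases S.hsg with h | h
    · omega
    · by_contra hc
      have h1 : t = 0 := by omega
      rw [h1, add_zero] at hd
      have h2 := (dvd_mul_right (C.p : ℤ) C.q).trans hd
      have h3 := dvd_add h2 (S.res b)
      rw [sub_add_cancel] at h3
      rcases hu with h4 | h4
      · omega
      · exact h4 h3
  have hl := hell a
  have hln := C.ell_lt a
  have hww := C.hw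
  have arc : ph C.N (C.U a + C.W) (C.ell a) u = 1 := by
    have h2 : C.N ∣ u - (C.U a + C.W + (t + sg)) := by
      have := dvd_sub hd T.hU
      rwa [show u - (C.U b + t) - (C.U a - (C.U b - C.W - sg)) = u - (C.U a + C.W + (t + sg)) by
        ring] at this
    have := S.hsg
    rw [ph_at h2 (by omega) (by omega), if_pos (by omega)]
  have s1 : 1 ≤ ∑ i ∈ range C.w, ph C.N (C.U (b - x + 1 + i) + C.W) (C.ell (b - x + 1 + i)) u := by
    have := Finset.single_le_sum
      (f := fun i : ℕ => ph C.N (C.U (b - x + 1 + i) + C.W) (C.ell (b - x + 1 + i)) u)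
      (fun _ _ => ph_nonneg _ _ _ _) (Finset.mem_range.2 (show C.w - 1 < C.w by omega))
    have e : b - x + 1 + ((C.w - 1 : ℕ) : ℤ) = a := by
      rw [T.row]; omega
    simp only [e] at this
    rwa [arc] at this
  have s2 : 1 ≤ ∑ i ∈ range C.h, C.hor (b - x + 1 + i) u := by
    have := Finset.single_le_sum
      (f := fun i : ℕ => C.hor (b - x + 1 + i) u)
      (fun _ _ => ph_nonneg _ _ _ _) (Finset.mem_range.2 (show (x - 1).toNat < C.h by omega))
    simp only [Int.toNat_of_nonneg (show 0 ≤ x - 1 by omega)] at this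
    rw [show b - x + 1 + (x - 1) = b by ring] at this
    rwa [hb] at this
  rw [g_alt]
  omega

variable {A : TAp} {T T' : A.Tie} {om wr : ℤ}

/-- **counting** -/
theorem cnt (d : DD A T T' 1 0) (hn : T.NoOvD) (hD : A.q * (A.w : ℤ) < A.D)
    (h2 : 2 * A.D < A.q * A.h) : (A.p : ℤ) < 2 * T'.t := by
  by_contra htt
  have hp := A.p_pos'
  have hq := A.q_pos'
  have q6 := q6 A
  have hw : (2 : ℤ) ≤ A.w := by exact_mod_cast A.hw
  have w2 : 2 * (A.w : ℤ) < A.p := by exact_mod_cast A.w2
  have hh : (2 : ℤ) ≤ A.h := by exact_mod_cast A.hh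
  have S := T.scD T' d.ht hn
  have hN : (A.cfg 0).N = A.p * A.q := rfl
  have hH : (A.cfg 0).H = A.q * A.h := rfl
  have hW : (A.cfg 0).W = A.q * A.w := rfl
  have t0 := T.t0
  have tp := T.tp
  have t0' := T'.t0
  have tp' := T'.tp
  have hte := d.ht
  have NHH := NH A
  unfold NN at NHH
  have D0 := D_pos A
  have pq : (A.p : ℤ) < A.q := by exact_mod_cast A.pq
  have hom : A.om = 1 := d.hom
  have hell : ∀ k, A.D ≤ (A.cfg 0).ell k ∧ (A.cfg 0).ell k ≤ 2 * A.D := by
    intro k
    obtain ⟨e1, e2⟩ := ell_p (A := A) hom (by omega) k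
    rcases le_or_gt (A.q - A.p : ℤ) (A.ix k) with h | h
    · rw [e1 h]; omega
    · rw [(e2 h).2 (by omega)]; omega
  have x0 : 0 < T'.x := by have := d.y0; omega
  have x1 : T'.x < A.h := by have := d.y1; omega
  have e1' : T'.ep = -1 := d.e2
  have vis : ∀ m, A.sg = 1 ∨ ¬ (((A.cfg 0).p : ℕ) : ℤ) ∣ col A m := fun m => vis_col A m
  have flc : ∀ m v Y, |Fq (A.cfg 0) Y (col A m) v| ≤ 1 := by
    intro m v Y
    unfold col
    rcases A.k0_cases with ⟨h, h'⟩ | ⟨h, h'⟩
    · have := d.F.two 0 (u := A.p * m - 2) (by rw [h', sub_add_cancel]; exact dvd_mul_right _ _) v Y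
      rwa [if_pos h, add_zero, ← sub_add_cancel ((A.p : ℤ) * m) 2]
    · have := d.F.two 0 (u := A.p * m - 1) (by rw [h', sub_add_cancel]; exact dvd_mul_right _ _) v Y
      rwa [if_neg (by omega), show (A.p : ℤ) * m + 1 = A.p * m - 1 + 2 by ring]
  have bd : ∀ m, nC (A.cfg 0) (col A m) ≤ A.w := by
    intro m
    have hc : nC (A.cfg 0) (col A m) = 0 ∨ ∃ k : ℕ, (A.cfg 0).hor k (col A m) = 1 := by
      by_cases h : ∃ k : ℕ, (A.cfg 0).hor k (col A m) = 1
      · exact Or.inr h
      · left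
        push Not at h
        unfold nC
        refine Finset.sum_eq_zero fun k _ => ?_
        rcases (A.cfg 0).hor01 k (col A m) with h1 | h1
        · exact h1
        · exact absurd h1 (h k)
    rcases hc with hc | ⟨k, hk⟩
    · rw [hc]; positivity
    have i0 := A.ix_nonneg (k : ℤ)
    have i1 := A.ix_lt (k : ℤ)
    have ir := A.ix_row (k : ℤ)
    set κ := A.ix (k : ℤ)
    have hl1 : ∀ k, (A.cfg 0).W + 1 ≤ (A.cfg 0).ell k := by
      intro k
      have := (hell k).1
      rw [hW]; omega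
    have hl2 : ∀ k, (A.cfg 0).ell k < (A.cfg 0).H := by
      intro k
      have := (hell k).2
      rw [hH]; omega
    rcases le_or_gt T'.t κ with h | h
    · have P := pairAt T' (l := κ - T'.t) (by omega) (by omega) (by rw [e1']; omega)
        (by rw [e1']; omega)
      have ha : (A.cfg 0).hor (A.e * (κ - T'.t) - (T'.x - A.w)) (col A m) = 1 := by
        rw [← hk]
        apply (A.cfg 0).hor_congr _ (by simp)
        obtain ⟨z, hz⟩ := ir
        obtain ⟨z', hz'⟩ := T'.row
        rw [e1'] at hz'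
        exact ⟨z - z', by
          change _ = (A.p : ℤ) * (z - z')
          linear_combination hz - hz'⟩
      exact nC_le_w S (vis m) (flc m) hl2 (g2R S P x0 x1 (vis m) hl1 ha)
    · have P := pairAt T' (l := κ) (by omega) (by omega) (by rw [e1']; omega)
        (by rw [e1']; omega)
      have hb : (A.cfg 0).hor (A.e * κ) (col A m) = 1 := by
        rw [← hk]
        exact (A.cfg 0).hor_congr ir (by simp)
      exact nC_le_w S (vis m) (flc m) hl2 (g2L S P x0 x1 (vis m) hl1 hb)
  obtain ⟨M, hM⟩ := A.hpw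
  have hsum := sum_col A hM
  have hs := A.hsg
  have sg' : A.sg = -1 := by
    have h1 : ∑ m ∈ range A.q, nC (A.cfg 0) (col A m) ≤ ∑ _m ∈ range A.q, (A.w : ℤ) :=
      Finset.sum_le_sum fun m _ => bd m
    rw [hsum, Finset.sum_const, Finset.card_range, nsmul_eq_mul] at h1
    omega
  have ht : (A.p : ℤ) * A.q ∣ A.a * T.t - (A.q * A.w + A.sg) := by
    have := T.tie
    rwa [d.e1, one_mul] at this
  have qp2 : (A.p : ℤ) + 1 < A.q := by
    by_contra hc
    have hq1 : (A.q : ℤ) = A.p + 1 := by omega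
    rw [sg', hq1] at hM
    have h1 : (A.p : ℤ) ∣ A.w - 1 := ⟨M - A.w, by linear_combination hM⟩
    have := Int.le_of_dvd (by omega) h1
    omega
  -- two rectangles without right partner
  have i1 : A.ix (A.e * (A.p - T.t)) = A.p - T.t :=
    A.ix_of (by omega) (by omega) (by rw [sub_self]; exact dvd_zero _)
  have i2 : A.ix (A.e * (A.p - T.t + 1)) = A.p - T.t + 1 := by
    refine A.ix_of (by omega) ?_ (by rw [sub_self]; exact dvd_zero _)
    by_contra hc
    have t1 := d.t1
    omega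
  obtain ⟨o1, ho1⟩ := A.U_dvd 0 (A.e * (A.p - T.t))
  obtain ⟨o2, ho2⟩ := A.U_dvd 0 (A.e * (A.p - T.t + 1))
  have d1 := drop A hM ht ho1 (by rw [i1]; omega) (by rw [i1]; omega)
  have d2 := drop A hM ht ho2 (by rw [i2]; omega) (by rw [i2]; omega)
  have c1 : nC (A.cfg 0) (col A (o1 + M)) ≤ A.w - 1 := by have := bd (o1 + M - 1); omega
  have c2 : nC (A.cfg 0) (col A (o2 + M)) ≤ A.w - 1 := by have := bd (o2 + M - 1); omega
  have hne : ¬ (A.q : ℤ) ∣ o1 - o2 := by
    intro hc
    have h1 : (A.p : ℤ) * A.q ∣ A.p * (o1 - o2) := mul_dvd_mul_left _ hc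
    rw [mul_sub, ← ho1, ← ho2, ix_U, ix_U, i1, i2,
      show A.a * (A.p - T.t) - A.a * (A.p - T.t + 1) = A.a * (-1) by ring] at h1
    have h2 := dvd_of A ((dvd_mul_left (A.q : ℤ) A.p).trans h1)
    rw [dvd_neg] at h2
    have := Int.le_of_dvd (by norm_num) h2
    omega
  -- periodicity
  have per : ∀ m, nC (A.cfg 0) (col A (m % A.q)) = nC (A.cfg 0) (col A m) := by
    intro m
    unfold nC
    refine Finset.sum_congr rfl fun k _ => ?_
    obtain ⟨o, ho⟩ := A.U_dvd 0 k
    rw [hor_col A hM ho, hor_col A hM ho]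
    apply ph_congr
    refine ⟨-(m / A.q), ?_⟩
    have := Int.emod_add_mul_ediv m A.q
    linear_combination this
  set m1 := ((o1 + M) % (A.q : ℤ)).toNat with hm1
  set m2 := ((o2 + M) % (A.q : ℤ)).toNat with hm2
  have a0 := Int.emod_nonneg (o1 + M) hq.ne'
  have a1 := Int.emod_lt_of_pos (o1 + M) hq
  have b0 := Int.emod_nonneg (o2 + M) hq.ne'
  have b1 := Int.emod_lt_of_pos (o2 + M) hq
  have k1 : (m1 : ℤ) = (o1 + M) % A.q := Int.toNat_of_nonneg a0
  have k2 : (m2 : ℤ) = (o2 + M) % A.q := Int.toNat_of_nonneg b0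
  have hm : m1 ≠ m2 := by
    intro hc
    apply hne
    have h1 : (o1 + M) % (A.q : ℤ) = (o2 + M) % A.q := by rw [← k1, ← k2, hc]
    have h3 := Int.dvd_of_emod_eq_zero (Int.emod_eq_emod_iff_emod_sub_eq_zero.1 h1)
    rwa [add_sub_add_right_eq_sub] at h3
  have h1 : ∑ m ∈ range A.q, (A.w - nC (A.cfg 0) (col A m)) = 1 := by
    rw [Finset.sum_sub_distrib, hsum, Finset.sum_const, Finset.card_range, nsmul_eq_mul, sg']
    ring
  have h2 : ∑ m ∈ ({m1, m2} : Finset ℕ), (A.w - nC (A.cfg 0) (col A m))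
      ≤ ∑ m ∈ range A.q, (A.w - nC (A.cfg 0) (col A m)) := by
    apply Finset.sum_le_sum_of_subset_of_nonneg
    · intro m hm
      simp only [Finset.mem_insert, Finset.mem_singleton] at hm
      rw [Finset.mem_range]
      rcases hm with rfl | rfl <;> omega
    · intro m _ _
      have := bd m
      omega
  rw [Finset.sum_pair hm, h1, k1, k2, per, per] at h2
  omega

end Pool.Agent.H78.D3
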