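import Pool.Agent.H78.Tie.Stat

/-!
# The class `K` next to a merged line in a configuration without overlaps
-/

namespace Pool.Agent.H78.Tie

open Finset
open Pool.Agent.H98.Flat
open Pool.Agent.H67.Flat

namespace SC

variable {C : Cfg} {sg : ℤ}

/-- the visible column next to the left of the line at the left wall of `b` -/
def LB (C : Cfg) (sg b u : ℤ) : Prop := (sg = 1 ∧ u = C.U b - 2) ∨ (sg = -1 ∧ u = C.U b - 1)

/-- values of `g` and `f` next to the line, level `b - h` -/
theorem KL_val (S : SC C sg) {a b x um up : ℤ} (T : TP C sg a b x) (hx : 0 < x) (hx' : x < C.h)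
    (hum : LB C sg b um) (hup : RC C sg b up)
    (flm : ∀ v Y, |Fq C Y um v| ≤ 1) (flp : ∀ v Y, |Fq C Y up v| ≤ 1) :
    (∀ v, C.V b - C.q * x - sg ≤ v → v < C.V b → C.f (b - C.h) v = C.g (b - C.h) um - 1) ∧
    C.f (b - C.h) (C.V b - C.H - 1) ≤ C.g (b - C.h) um - 1 := by
  have G := S.G
  have hN := C.N_pos
  have hp : (0 : ℤ) < C.p := by exact_mod_cast C.p_pos
  have hq : (3 : ℤ) ≤ C.q := by exact_mod_cast S.q3
  have hw2 := S.w2
  have hh2 := S.h2
  have hww := S.hw
  have hWe : C.W = C.q * C.w := rfl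
  have hHe : C.H = C.q * C.h := rfl
  have hVb : C.V b = C.U b + C.q * b := rfl
  have hVa := T.hV
  have hUa := T.hU
  have hra := T.row
  obtain ⟨z1, z2, z3, z4⟩ := S.size
  have hsg := S.hsg
  have h1 : (C.q : ℤ) * 1 ≤ C.q * x := mul_le_mul_of_nonneg_left (by omega) (by omega)
  have h2 : (C.q : ℤ) * (x + 1) ≤ C.q * C.h := mul_le_mul_of_nonneg_left (by omega) (by omega)
  have e2 : (C.q : ℤ) * (x + 1) = C.q * x + C.q := by ring
  rw [mul_one] at h1
  rw [e2, ← hHe] at h2
  set X := (C.q : ℤ) * x with hX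
  set va := C.V b - X - sg with hva
  set Y := b - C.h with hY
  -- the left wall of `b` is not seen
  have gL : C.g Y (C.U b) ≤ C.g Y (C.U b - 1) := by
    have j := C.g_jump Y (C.U b)
    have s2 : 0 ≤ ∑ i ∈ range C.h, dv C.N (C.U b - (C.U (Y + C.w + i) + C.W)) :=
      Finset.sum_nonneg fun _ _ => dv_nonneg _ _
    have s3 : ∑ i ∈ range C.h, dv C.N (C.U b - C.U (Y + i)) = 0 := by
      refine Finset.sum_eq_zero fun i hi => ?_
      have hi := Finset.mem_range.1 hi
      apply dv_not
      intro hc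
      have h3 := G.UU _ _ hc
      rw [show b - (Y + i) = (C.h : ℤ) - i by rw [hY]; ring] at h3
      exact ndvd (by omega) (by omega) h3
    omega
  -- the right wall of `a` is seen
  have gR : ∀ u, C.N ∣ u - (C.U a + C.W) → C.g Y u + 1 ≤ C.g Y (u - 1) := by
    intro u hu
    apply C.g_down_of G (i := (C.h - x : ℤ).toNat) (by omega)
    rw [Int.toNat_of_nonneg (by omega), show Y + C.w + (C.h - x : ℤ) = a by rw [hra, hY]; ring]
    exact hu
  have hRw : C.N ∣ C.U b - sg - (C.U a + C.W) := by
    have := (dvd_neg).2 hUa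
    rwa [show C.U b - sg - (C.U a + C.W) = -(C.U a - (C.U b - C.W - sg)) by ring]
  have g1 : C.g Y up + 1 ≤ C.g Y um := by
    rcases hsg with hs | hs
    · obtain ⟨hu1, hu2⟩ : up = C.U b ∧ um = C.U b - 2 := by
        rcases hum with ⟨h, h'⟩ | ⟨h, h'⟩ <;> rcases hup with ⟨h3, h3'⟩ | ⟨h3, h3'⟩ <;> omega
      rw [hs] at hRw
      have := gR (C.U b - 1) hRw
      rw [show C.U b - 1 - 1 = C.U b - 2 by ring] at this
      rw [hu1, hu2]
      omega
    · obtain ⟨hu1, hu2⟩ : up = C.U b + 1 ∧ um = C.U b - 1 := by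
        rcases hum with ⟨h, h'⟩ | ⟨h, h'⟩ <;> rcases hup with ⟨h3, h3'⟩ | ⟨h3, h3'⟩ <;> omega
      rw [hs] at hRw
      have := gR (C.U b + 1) (by rwa [show C.U b - -1 = C.U b + 1 by ring] at hRw)
      rw [add_sub_cancel_right] at this
      rw [hu1, hu2]
      omega
  -- `b` covers `up`
  have bup : C.hor b up = 1 := by
    rcases hup with ⟨_, h'⟩ | ⟨_, h'⟩
    · exact S.hor_of (t := 0) (by rw [h']; simp) le_rfl (by omega)
    · exact S.hor_of (t := 1) (by rw [h']; simp) (by omega) (by omega)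
  have fle : ∀ v, C.V b - C.H ≤ v → v < C.V b → C.f Y v ≤ C.g Y um - 1 := by
    intro v v0 v1
    have r1 : 1 ≤ C.R up v := by
      apply C.R_pos_of_In (k := b)
      refine ⟨bup, S.ver_of (t := v - (C.V b - C.H)) ?_ (by omega) (by omega)⟩
      rw [show v - (C.V b - C.H + (v - (C.V b - C.H))) = 0 by ring]
      exact dvd_zero _
    have b1 := (abs_le.1 (flp v Y)).2
    unfold Fq at b1
    omega
  refine ⟨?_, ?_⟩
  · intro v v0 v1
    have h3 := fle v (by omega) v1
    have r0 : C.R um v = 0 := by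
      apply R_zero_of
      intro k hk
      have av : C.ver a v = 0 := by
        apply S.ver_not (t := v - (va - C.H)) _ (by omega) (by omega)
        have := (dvd_neg).2 hVa
        rwa [show v - (C.V a - C.H + (v - (va - C.H))) = -(C.V a - va) by ring]
      have hka : ¬ (C.p : ℤ) ∣ k - a := by
        intro h
        have := hk.2
        rw [C.ver_congr h (by simp : C.N ∣ v - v), av] at this
        omega
      have bv : C.ver b v = 1 := by
        apply S.ver_of (t := v - (C.V b - C.H)) _ (by omega) (by omega)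
        rw [show v - (C.V b - C.H + (v - (C.V b - C.H))) = 0 by ring]
        exact dvd_zero _
      -- the rectangle `k` ends between the two columns
      have hkb : (C.p : ℤ) ∣ k - b → False := by
        intro h
        have h4 := hk.1
        rw [C.hor_congr h (by simp : C.N ∣ um - um)] at h4
        have h5 : C.hor b um = 0 := by
          rcases hum with ⟨_, h'⟩ | ⟨_, h'⟩
          · unfold Cfg.hor
            rw [ph_at (t := C.N - 2) (by rw [h']; exact ⟨-1, by ring⟩) (by omega) (by omega),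
              if_neg (by omega)]
          · unfold Cfg.hor
            rw [ph_at (t := C.N - 1) (by rw [h']; exact ⟨-1, by ring⟩) (by omega) (by omega),
              if_neg (by omega)]
        omega
      have kup : C.hor k up = 0 := by
        rcases C.hor01 k up with h | h
        · exact h
        · exfalso
          have h4 := S.dj k b up v (fun h => hkb h) ⟨h, hk.2⟩ ⟨bup, bv⟩
          rcases hup with ⟨h5, _⟩ | ⟨_, h5⟩
          · omega
          · apply S.one_not
            have := dvd_sub h4.2 (S.res b)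
            rwa [h5, add_sub_cancel_left] at this
      -- its right wall
      have rw1 : ∃ c, (c = um + 1 ∨ c = um + 2) ∧ C.N ∣ c - (C.U k + C.W) := by
        rcases ph_succ C.N_pos C.W_pos.le C.W_lt.le hk.1 with h | h
        · rcases ph_succ C.N_pos C.W_pos.le C.W_lt.le h with h' | h'
          · exfalso
            have h6 : up = um + 1 + 1 := by
              rcases hum with ⟨h3, h3'⟩ | ⟨h3, h3'⟩ <;> rcases hup with ⟨h4, h4'⟩ | ⟨h4, h4'⟩ <;>
                omega
            unfold Cfg.hor at kup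
            rw [h6] at kup
            omega
          · exact ⟨_, Or.inr rfl, by rwa [add_assoc, show (1 : ℤ) + 1 = 2 by norm_num] at h'⟩
        · exact ⟨_, Or.inl rfl, h⟩
      obtain ⟨c, hc, hcw⟩ := rw1
      -- `c = U b` or `c = U b - sg`
      have hcc : c = C.U b ∨ c = C.U b - sg := by
        rcases hum with ⟨h3, h3'⟩ | ⟨h3, h3'⟩ <;> rcases hc with h4 | h4 <;> omega
      rcases hcc with h4 | h4
      · rw [h4] at hcw
        exact G.UW b k hcw
      · rw [h4] at hcw
        apply hka
        apply G.UU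
        have := dvd_sub hRw hcw
        rwa [show C.U b - sg - (C.U a + C.W) - (C.U b - sg - (C.U k + C.W)) = C.U k - C.U a by
          ring] at this
    have b1 := (abs_le.1 (flm v Y)).1
    unfold Fq at b1
    omega
  · have gi := C.gid Y (C.U b - 1) (C.q * Y) (by nlinarith) le_rfl
    have e4 : C.U b - 1 + C.q * Y = C.V b - C.H - 1 := by rw [hVb, hHe, hY]; ring
    rw [e4] at gi
    rcases hsg with hs | hs
    · have hu2 : um = C.U b - 2 := by
        rcases hum with ⟨h, h'⟩ | ⟨h, h'⟩
        · exact h'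
        · omega
      rw [hs] at hRw
      have := gR (C.U b - 1) hRw
      rw [show C.U b - 1 - 1 = C.U b - 2 by ring, ← hu2] at this
      have := C.R_nonneg (C.U b - 1) (C.V b - C.H - 1)
      omega
    · have hu2 : um = C.U b - 1 := by
        rcases hum with ⟨h, h'⟩ | ⟨h, h'⟩
        · omega
        · exact h'
      rw [← hu2] at gi
      have r1 : 1 ≤ C.R um (C.V b - C.H - 1) := by
        apply C.R_pos_of_In (k := a)
        refine ⟨S.hor_of (t := C.W - 2) ?_ (by omega) (by omega),
          S.ver_of (t := X + sg - 1) ?_ (by omega) (by omega)⟩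
        · have := (dvd_neg).2 hUa
          rwa [hu2, show C.U b - 1 - (C.U a + (C.W - 2)) = -(C.U a - (C.U b - C.W - sg)) by
            rw [hs]; ring]
        · have := (dvd_neg).2 hVa
          rwa [show C.V b - C.H - 1 - (C.V a - C.H + (X + sg - 1)) = -(C.V a - va) by
            rw [hva]; ring]
      omega

/-- **the class `K`** -/
theorem KL (S : SC C sg) {a b x um up : ℤ} (T : TP C sg a b x) (hx : 0 < x) (hx' : x < C.h)
    (hum : LB C sg b um) (hup : RC C sg b up)
    (flm : ∀ v Y, |Fq C Y um v| ≤ 1) (flp : ∀ v Y, |Fq C Y up v| ≤ 1) :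
    ∃ (i : ℕ) (r : ℤ), i < C.w ∧ C.q * x + sg ≤ r ∧ r ≤ C.H - 2 ∧
      C.N ∣ C.V (b - C.h + i) - (C.V b - 1 - r) ∧ r + 1 < C.ell (b - C.h + i) ∧
      C.ell (b - C.h + i) ≤ C.N + r + 1 - C.H ∧ C.W - 1 ≤ C.H - C.q * i - 1 - r := by
  have G := S.G
  have hN := C.N_pos
  have hp : (0 : ℤ) < C.p := by exact_mod_cast C.p_pos
  have hq : (3 : ℤ) ≤ C.q := by exact_mod_cast S.q3
  have hw2 := S.w2
  have hh2 := S.h2
  have hww := S.hw
  have hWe : C.W = C.q * C.w := rfl
  have hHe : C.H = C.q * C.h := rfl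
  have hVb : C.V b = C.U b + C.q * b := rfl
  have hVa := T.hV
  have hra := T.row
  obtain ⟨z1, z2, z3, z4⟩ := S.size
  have hsg := S.hsg
  have h1 : (C.q : ℤ) * 1 ≤ C.q * x := mul_le_mul_of_nonneg_left (by omega) (by omega)
  have h2 : (C.q : ℤ) * (x + 1) ≤ C.q * C.h := mul_le_mul_of_nonneg_left (by omega) (by omega)
  have e2 : (C.q : ℤ) * (x + 1) = C.q * x + C.q := by ring
  rw [mul_one] at h1
  rw [e2, ← hHe] at h2
  obtain ⟨k1, k2⟩ := S.KL_val T hx hx' hum hup flm flp
  set X := (C.q : ℤ) * x with hX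
  set va := C.V b - X - sg with hva
  set Y := b - C.h with hY
  have f1 : C.f Y (C.V b - C.H) + 1 ≤ C.f Y (C.V b - C.H - 1) := by
    apply C.f_down_of G (i := 0) (by omega)
    rw [show Y + C.h + ((0 : ℕ) : ℤ) = b by rw [hY]; push_cast; ring]
    simp
  have f2 := k1 (C.V b - 1) (by omega) (by omega)
  have f3 : C.f Y (C.V b - C.H) < C.f Y (C.V b - 1) := by omega
  obtain ⟨i, hi, hi2⟩ : ∃ i : ℕ, i < C.w ∧
      ph C.N (C.V (Y + i)) (C.ell (Y + i)) (C.V b - C.H) <
        ph C.N (C.V (Y + i)) (C.ell (Y + i)) (C.V b - 1) := by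
    by_contra hc
    push Not at hc
    apply absurd f3
    rw [not_lt]
    unfold Cfg.f
    exact Finset.sum_le_sum fun i hi => hc i (Finset.mem_range.1 hi)
  have p1 : ph C.N (C.V (Y + i)) (C.ell (Y + i)) (C.V b - 1) = 1 := by
    have := ph_nonneg C.N (C.V (Y + i)) (C.ell (Y + i)) (C.V b - C.H)
    have := ph_le_one C.N (C.V (Y + i)) (C.ell (Y + i)) (C.V b - 1)
    omega
  have p0 : ph C.N (C.V (Y + i)) (C.ell (Y + i)) (C.V b - C.H) = 0 := by
    have := ph_nonneg C.N (C.V (Y + i)) (C.ell (Y + i)) (C.V b - C.H)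
    omega
  clear hi2
  have r1 := ph_eq_one_iff.1 p1
  have r0 := Int.emod_nonneg (C.V b - 1 - C.V (Y + i)) hN.ne'
  have r2 := Int.emod_lt_of_pos (C.V b - 1 - C.V (Y + i)) hN
  have re := Int.emod_add_mul_ediv (C.V b - 1 - C.V (Y + i)) C.N
  set r := (C.V b - 1 - C.V (Y + i)) % C.N with hr
  set z := (C.V b - 1 - C.V (Y + i)) / C.N
  have hd : C.N ∣ C.V (Y + i) - (C.V b - 1 - r) := ⟨-z, by linear_combination re⟩
  have rH : r ≤ C.H - 2 := by
    by_contra hc
    rw [ph_at (t := r - (C.H - 1)) (by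
      have := (dvd_neg).2 hd
      rwa [show C.V b - C.H - (C.V (Y + i) + (r - (C.H - 1)))
        = -(C.V (Y + i) - (C.V b - 1 - r)) by ring]) (by omega) (by omega), if_pos (by omega)] at p0
    omega
  have hell : C.ell (Y + i) ≤ C.N + r + 1 - C.H := by
    by_contra hc
    rw [ph_at (t := C.N + r + 1 - C.H) (by
      obtain ⟨y, hy⟩ := hd
      exact ⟨-y - 1, by linear_combination -hy⟩) (by omega) (by omega), if_pos (by omega)] at p0
    omega
  have rX : X + sg ≤ r := by
    by_contra hc
    have h5 := k1 (C.V b - 1 - r) (by omega) (by omega)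
    rcases eq_or_lt_of_le (show va ≤ C.V b - 1 - r by omega) with h6 | h6
    · -- `V k = V a`
      have h7 := G.VV a (Y + i) (by
        have := dvd_sub hVa hd
        rwa [← h6, show C.V a - va - (C.V (Y + i) - va) = C.V a - C.V (Y + i) by ring] at this)
      rw [hra, hY, show b + C.w - x - (b - C.h + i) = C.w + C.h - x - (i : ℤ) by ring] at h7
      exact ndvd (by omega) (by omega) h7
    · have h7 := k1 (C.V b - 1 - r - 1) (by omega) (by omega)
      have h8 : C.f Y (C.V b - 1 - r - 1) + 1 ≤ C.f Y (C.V b - 1 - r) := by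
        apply C.f_up_of G hi
        have := (dvd_neg).2 hd
        rwa [neg_sub] at this
      omega
  have r1' : r + 1 < C.ell (Y + i) := by
    rcases eq_or_lt_of_le (show r + 1 ≤ C.ell (Y + i) by omega) with h | h
    · exfalso
      apply G.VH b (Y + i + C.h)
      have h3 := dvd_sub (C.V_ell (Y + i)) hd
      rwa [← h, show C.V (Y + i) + (r + 1) - (C.V (Y + i + C.h) - C.H)
        - (C.V (Y + i) - (C.V b - 1 - r)) = C.V b - (C.V (Y + i + C.h) - C.H) by ring] at h3
    · exact h
  refine ⟨i, r, hi, rX, rH, hd, r1', hell, ?_⟩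
  -- no overlap
  by_contra hc
  have hi' : (i : ℤ) + 1 ≤ C.w := by exact_mod_cast hi
  have e5 : (C.q : ℤ) * (i + 1) ≤ C.q * C.w := mul_le_mul_of_nonneg_left hi' (by omega)
  have e6 : (C.q : ℤ) * (i + 1) = C.q * i + C.q := by ring
  rw [e6, ← hWe] at e5
  have i0 : 0 ≤ (C.q : ℤ) * i := by positivity
  have hUk : C.N ∣ C.U (Y + i) - (C.U b + (C.H - C.q * i - 1 - r)) := by
    have e7 : C.V (Y + i) = C.U (Y + i) + C.q * (Y + i) := rfl
    rw [e7, hVb] at hd
    rwa [show C.U (Y + i) - (C.U b + (C.H - C.q * i - 1 - r))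
      = C.U (Y + i) + C.q * (Y + i) - (C.U b + C.q * b - 1 - r) by rw [hHe, hY]; ring]
  have hkb : ¬ (C.p : ℤ) ∣ Y + i - b := by
    intro h
    rw [hY, show b - C.h + i - b = -((C.h : ℤ) - i) by ring, dvd_neg] at h
    have : (i : ℤ) < C.h := by
      -- `i q < H - W + …`
      by_contra hc2
      have h9 : (C.q : ℤ) * C.h ≤ C.q * i := mul_le_mul_of_nonneg_left (by omega) (by omega)
      rw [← hHe] at h9
      rcases eq_or_lt_of_le (show (C.h : ℤ) ≤ i by omega) with h10 | h10
      · -- `i = h` : `V k = V b`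
        have h11 : Y + i = b := by rw [hY]; omega
        rw [h11] at hd
        rw [show C.V b - (C.V b - 1 - r) = r + 1 by ring] at hd
        exact ndvd (by omega) (by omega) hd
      · have h12 : (C.p : ℤ) ∣ i - C.h := by
          have := (dvd_neg).2 h
          rwa [neg_sub] at this
        exact ndvd (by omega) (by omega) h12
    exact ndvd (by omega) (by omega) h
  have kv : C.ver (Y + i) (C.V b - C.H) = 1 := by
    apply S.ver_of (t := 1 + r) _ (by omega) (by omega)
    have := (dvd_neg).2 hd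
    rwa [show C.V b - C.H - (C.V (Y + i) - C.H + (1 + r)) = -(C.V (Y + i) - (C.V b - 1 - r)) by
      ring]
  have bv : C.ver b (C.V b - C.H) = 1 := by
    apply S.ver_of (t := 0) _ (by omega) (by omega)
    simp
  rcases le_or_gt 0 (C.H - C.q * i - 1 - r) with h9 | h9
  · refine S.two hkb (x := C.U b + (C.H - C.q * i - 1 - r)) ?_ ?_ ?_ ?_ kv bv
    · apply S.hor_of (t := 0) _ (by omega) (by omega)
      have := (dvd_neg).2 hUk
      rwa [neg_sub, ← add_zero (C.U (Y + i))] at this
    · apply S.hor_of (t := 1) _ (by omega) (by omega)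
      have := (dvd_neg).2 hUk
      rwa [show C.U b + (C.H - C.q * i - 1 - r) + 1 - (C.U (Y + i) + 1)
        = -(C.U (Y + i) - (C.U b + (C.H - C.q * i - 1 - r))) by ring]
    · apply S.hor_of (t := C.H - C.q * i - 1 - r) _ (by omega) (by omega)
      simp
    · apply S.hor_of (t := C.H - C.q * i - 1 - r + 1) _ (by omega) (by omega)
      rw [show C.U b + (C.H - C.q * i - 1 - r) + 1 - (C.U b + (C.H - C.q * i - 1 - r + 1)) = 0 by
        ring]
      exact dvd_zero _
  · refine S.two hkb (x := C.U b) ?_ ?_ ?_ ?_ kv bv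
    · apply S.hor_of (t := -(C.H - C.q * i - 1 - r)) _ (by omega) (by omega)
      have := (dvd_neg).2 hUk
      rwa [show C.U b - (C.U (Y + i) + -(C.H - C.q * i - 1 - r))
        = -(C.U (Y + i) - (C.U b + (C.H - C.q * i - 1 - r))) by ring]
    · apply S.hor_of (t := -(C.H - C.q * i - 1 - r) + 1) _ (by omega) (by omega)
      have := (dvd_neg).2 hUk
      rwa [show C.U b + 1 - (C.U (Y + i) + (-(C.H - C.q * i - 1 - r) + 1))
        = -(C.U (Y + i) - (C.U b + (C.H - C.q * i - 1 - r))) by ring]
    · apply S.hor_of (t := 0) _ (by omega) (by omega)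
      simp
    · apply S.hor_of (t := 1) _ (by omega) (by omega)
      simp

end SC

end Pool.Agent.H78.Tie
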