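import Pool.Agent.H78.D3.KL
import Pool.Agent.H23.DT.Wr

/-!
# The class `K` for arithmetic progressions
-/

namespace Pool.Agent.H78.D3

open Finset
open Pool.Agent.H98.Flat
open Pool.Agent.H67.Flat
open Pool.Agent.H78.RT
open Pool.Agent.H78.Tie
open Pool.Agent.H78.Tie.TAp
open Pool.Agent.H23.DT

variable {A : TAp} {T T' : A.Tie} {om wr : ℤ}

/-- columns next to the left of a line are bounded -/
theorem lb (F : A.Fl) {b u : ℤ} (hu : SC.LB (A.cfg 0) A.sg b u) (v Y : ℤ) :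
    |Fq (A.cfg 0) Y u v| ≤ 1 := by
  have h0 := A.U_dvd 0 b
  rcases A.k0_cases with ⟨h, h'⟩ | ⟨h, h'⟩ <;> rcases hu with ⟨h1, h2⟩ | ⟨h1, h2⟩
  · exact F.zero 0 (by rwa [h2, h', sub_add_cancel]) v Y
  · omega
  · omega
  · exact F.zero 0 (by rwa [h2, h', sub_add_cancel]) v Y

theorem lb_exists (A : TAp) (b : ℤ) : ∃ u, SC.LB (A.cfg 0) A.sg b u := by
  rcases A.hsg with h | h
  · exact ⟨_, Or.inl ⟨h, rfl⟩⟩
  · exact ⟨_, Or.inr ⟨h, rfl⟩⟩

/-- the pair of the tie at the index `l` -/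
theorem pairAt (T : A.Tie) {l : ℤ} (l0 : 0 ≤ l) (l1 : l < A.p) (m0 : 0 ≤ l - T.ep * T.t)
    (m1 : l - T.ep * T.t < A.p) :
    SC.TP (A.cfg 0) A.sg (A.e * l - (T.x - A.w)) (A.e * l) T.x := by
  have hW : (A.cfg 0).W = A.q * A.w := rfl
  have e2 : T.ep * T.ep = 1 := by rcases T.hep with h | h <;> rw [h] <;> norm_num
  have Ub : (A.cfg 0).U (A.e * l) = A.a * l := U_of_idx l0 (by omega) (by simp)
  have Ua : (A.cfg 0).U (A.e * l - (T.x - A.w)) = A.a * (l - T.ep * T.t) := by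
    apply U_of_idx m0 (by omega)
    obtain ⟨z, hz⟩ := T.row
    exact ⟨-T.ep * z, by linear_combination (-T.ep) * hz - (T.x - A.w) * e2⟩
  refine ⟨?_, ?_⟩
  · obtain ⟨z, hz⟩ := T.tie
    rw [Ua, Ub, hW]
    exact ⟨-T.ep * z, by
      change _ = (A.p : ℤ) * A.q * (-T.ep * z)
      linear_combination (-T.ep) * hz - (A.q * A.w + A.sg) * e2⟩
  · change A.e * l - (T.x - A.w) = A.e * l + A.w - T.x
    ring

theorem ell_def (A : TAp) (k : ℤ) :
    (A.cfg 0).ell k = (A.a * A.ix (k + A.h) - A.a * A.ix k) % ((A.p : ℤ) * A.q) := by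
  unfold Cfg.ell
  rw [ix_U, ix_U]
  rfl

theorem D_lt_N (A : TAp) : A.D < (A.p : ℤ) * A.q := by
  have h1 := ND A
  have h2 := NH A
  have h3 := H2 A
  have h4 := A.q_pos'
  unfold NN at h1 h2
  omega

/-- lengths of the arcs, `om = 1` -/
theorem ell_p (hom : A.om = 1) (h2 : (A.q : ℤ) < 2 * A.p) (k : ℤ) :
    (A.q - A.p ≤ A.ix k → (A.cfg 0).ell k = A.D) ∧
    (A.ix k < A.q - A.p → (A.cfg 0).ell k ≤ 2 * A.D ∧
      (2 * A.D < (A.p : ℤ) * A.q → (A.cfg 0).ell k = 2 * A.D)) := by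
  have hp := A.p_pos'
  have hq := A.q_pos'
  have hN : 0 < (A.p : ℤ) * A.q := by positivity
  have i0 := A.ix_nonneg k
  have i1 := A.ix_lt k
  have pq : (A.p : ℤ) < A.q := by exact_mod_cast A.pq
  have D0 := D_pos A
  have hD : A.D = A.q * A.md + A.fd := rfl
  obtain ⟨z, hz⟩ := A.ix_row k
  obtain ⟨z', hz'⟩ := A.hqe
  rw [hom, one_mul] at hz'
  obtain ⟨y, hy⟩ := A.hpa
  obtain ⟨y', hy'⟩ := A.hd
  rw [ell_def]
  constructor
  · intro h
    have hi : A.ix (k + A.h) = A.ix k - A.q + A.p :=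
      ix_of (by omega) (by omega) ⟨z - z' + A.e, by linear_combination hz - hz'⟩
    rw [hi, emod_congr (b := A.D) ⟨y' - y, by rw [hD]; linear_combination hy' - A.q * hy⟩]
    exact Int.emod_eq_of_lt D0.le (D_lt_N A)
  · intro h
    have hi : A.ix (k + A.h) = A.ix k - A.q + 2 * A.p :=
      ix_of (by omega) (by omega) ⟨z - z' + 2 * A.e, by linear_combination hz - hz'⟩
    rw [hi, emod_congr (b := 2 * A.D) ⟨2 * y' - y, by rw [hD]; linear_combination 2 * hy' - A.q * hy⟩]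
    rcases lt_or_ge (2 * A.D) ((A.p : ℤ) * A.q) with h3 | h3
    · rw [Int.emod_eq_of_lt (by omega) h3]
      exact ⟨le_rfl, fun _ => rfl⟩
    · have := Int.emod_lt_of_pos (2 * A.D) hN
      exact ⟨by omega, fun h4 => by omega⟩

/-- lengths of the arcs, `om = -1` -/
theorem ell_m (hom : A.om = -1) (h2 : (A.q : ℤ) < 2 * A.p) (k : ℤ) :
    (A.p : ℤ) * A.q - (A.cfg 0).ell k ≤ 2 * A.D := by
  have hp := A.p_pos'
  have hq := A.q_pos'
  have hN : 0 < (A.p : ℤ) * A.q := by positivity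
  have i0 := A.ix_nonneg k
  have i1 := A.ix_lt k
  have pq : (A.p : ℤ) < A.q := by exact_mod_cast A.pq
  have D0 := D_pos A
  have DN := D_lt_N A
  have hD : A.D = A.q * A.md + A.fd := rfl
  obtain ⟨z, hz⟩ := A.ix_row k
  obtain ⟨z', hz'⟩ := A.hqe
  rw [hom] at hz'
  obtain ⟨y, hy⟩ := A.hpa
  obtain ⟨y', hy'⟩ := A.hd
  rw [ell_def]
  rcases lt_or_ge (A.ix k + A.q) (2 * A.p) with h | h
  · have hi : A.ix (k + A.h) = A.ix k + A.q - A.p :=
      ix_of (by omega) (by omega) ⟨z + z' - A.e, by linear_combination hz + hz'⟩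
    rw [hi, emod_congr (b := (A.p : ℤ) * A.q - A.D)
      ⟨y - y' - 1, by rw [hD]; linear_combination A.q * hy - hy'⟩,
      Int.emod_eq_of_lt (by omega) (by omega)]
    omega
  · have hi : A.ix (k + A.h) = A.ix k + A.q - 2 * A.p :=
      ix_of (by omega) (by omega) ⟨z + z' - 2 * A.e, by linear_combination hz + hz'⟩
    rcases le_or_gt (2 * A.D) ((A.p : ℤ) * A.q) with h3 | h3
    · rw [hi, emod_congr (b := (A.p : ℤ) * A.q - 2 * A.D)
        ⟨y - 2 * y' - 1, by rw [hD]; linear_combination A.q * hy - 2 * hy'⟩,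
        Int.emod_eq_of_lt (by omega) (by omega)]
      omega
    · have := Int.emod_nonneg (A.a * A.ix (k + A.h) - A.a * A.ix k) hN.ne'
      omega

/-- **the class `K`** of a tie with `0 < x` at the index `l` -/
theorem Kcls (F : A.Fl) (S : SC (A.cfg 0) A.sg) (T : A.Tie) (hx : 0 < T.x) (hx' : T.x < A.h)
    {l : ℤ} (l0 : 0 ≤ l) (l1 : l < A.p) (m0 : 0 ≤ l - T.ep * T.t) (m1 : l - T.ep * T.t < A.p) :
    ∃ i r : ℤ, 0 ≤ i ∧ i < A.w ∧ A.q * T.x ≤ r ∧ r ≤ A.q * A.h - 2 ∧ A.q * T.x + A.sg ≤ r ∧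
      NN A ∣ A.a * A.ix (A.e * l - A.h + i) - A.a * l - (A.q * A.h - A.q * i - 1 - r) ∧
      r + 1 < (A.cfg 0).ell (A.e * l - A.h + i) ∧
      (A.cfg 0).ell (A.e * l - A.h + i) ≤ NN A + r + 1 - A.q * A.h ∧
      A.q * A.w - (1 - A.sg) / 2 ≤ A.q * A.h - A.q * i - 1 - r := by
  have hp := A.p_pos'
  have hq := A.q_pos'
  obtain ⟨um, hum⟩ := lb_exists A (A.e * l)
  obtain ⟨up, hup⟩ := rc_exists A (A.e * l)
  obtain ⟨i, r, hi, h1, h2, h3, h4, h5, h6⟩ := S.KL (pairAt T l0 l1 m0 m1) hx hx' hum hup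
    (lb F hum) (F.rc hup)
  have hW : (A.cfg 0).W = A.q * A.w := rfl
  have hH : (A.cfg 0).H = A.q * A.h := rfl
  have hh : (((A.cfg 0).h : ℕ) : ℤ) = A.h := rfl
  have hqq : (((A.cfg 0).q : ℕ) : ℤ) = A.q := rfl
  have hN : (A.cfg 0).N = NN A := rfl
  rw [hqq] at h1 h6
  rw [hh] at h3 h4 h5
  rw [hH] at h2 h5 h6
  rw [hN] at h3 h5
  rw [hW] at h6
  have hVk : (A.cfg 0).V (A.e * l - A.h + i) = A.a * A.ix (A.e * l - A.h + i)
      + A.q * (A.e * l - A.h + i) := by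
    change (A.cfg 0).U _ + A.q * _ = _
    rw [ix_U]
  have hVb : (A.cfg 0).V (A.e * l) = A.a * l + A.q * (A.e * l) := by
    change (A.cfg 0).U _ + A.q * _ = _
    rw [U_of_idx l0 (by omega) (by simp)]
  rw [hVk, hVb, show A.a * A.ix (A.e * l - A.h + i) + A.q * (A.e * l - A.h + i)
    - (A.a * l + A.q * (A.e * l) - 1 - r)
    = A.a * A.ix (A.e * l - A.h + i) - A.a * l - (A.q * A.h - A.q * i - 1 - r) by ring] at h3
  -- genericity
  have hne : A.ix (A.e * l - A.h + i) ≠ l := by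
    intro h
    rw [h, sub_self, zero_sub, dvd_neg] at h3
    have h7 := W2 A
    have h8 := NH A
    have h9 : 0 ≤ (A.q : ℤ) * i := by positivity
    have h10 : 0 ≤ (A.q : ℤ) * T.x := mul_nonneg hq.le hx.le
    have h11 := A.hsg
    have h12 := q6 A
    exact SC.ndvd (by omega) (by omega) h3
  have hr : ¬ (A.q : ℤ) ∣ r + 1 := by
    intro hc
    have i0 := A.ix_nonneg (A.e * l - A.h + i)
    have i1 := A.ix_lt (A.e * l - A.h + i)
    refine A.gen (A.ix (A.e * l - A.h + i) - l) (by omega) (by rw [abs_le]; constructor <;> omega) ?_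
    have h7 := (dvd_mul_left (A.q : ℤ) A.p).trans h3
    obtain ⟨y, hy⟩ := h7
    obtain ⟨y', hy'⟩ := hc
    exact ⟨y + A.h - i - y', by linear_combination hy - hy'⟩
  have hr1 : A.q * T.x ≤ r := by
    rcases A.hsg with h | h
    · omega
    · rcases eq_or_lt_of_le h1 with h7 | h7
      · exact absurd ⟨T.x, by rw [← h7, h]; ring⟩ hr
      · omega
  refine ⟨i, r, by positivity, by exact_mod_cast hi, hr1, h2, h1, h3, h4, h5, ?_⟩
  rcases A.hsg with h | h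
  · rw [h]
    rw [show ((1 : ℤ) - 1) / 2 = 0 by norm_num, sub_zero]
    rcases eq_or_lt_of_le h6 with h7 | h7
    · exfalso
      rw [← h7] at h3
      have h8 := (dvd_mul_right (A.p : ℤ) A.q).trans h3
      obtain ⟨y, hy⟩ := h8
      obtain ⟨y', hy'⟩ := A.hpa
      obtain ⟨M, hM⟩ := A.hpw
      rw [h] at hM
      have h9 : (A.p : ℤ) ∣ 2 :=
        ⟨y + M - y' * (A.ix (A.e * l - A.h + i) - l), by linear_combination hy + hM - (A.ix (A.e * l - A.h + i) - l) * hy'⟩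
      have := Int.le_of_dvd (by norm_num) h9
      have := A.w2; have := A.hw
      omega
    · omega
  · rw [h]
    rw [show ((1 : ℤ) - -1) / 2 = 1 by norm_num]
    omega

/-- the class of the difference of `K` and `L` -/
theorem relC {l κ δ s : ℤ} (l0 : 0 ≤ l) (l1 : l < A.p) (k0 : 0 ≤ κ) (k1 : κ < A.p)
    (hU : NN A ∣ A.a * κ - A.a * l - δ) (hs : (A.p : ℤ) ∣ A.e * κ - A.e * l - s)
    (d0 : 0 < δ) (d1 : δ < NN A) :
    (l < κ ∧ IsC A (κ - l) δ (A.q * s) (th A (κ - l))) ∨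
      (κ < l ∧ IsC A (κ - l + A.p) (δ + A.D) (A.q * s) (th A (κ - l + A.p))) := by
  rcases lt_trichotomy l κ with h | h | h
  · left
    refine ⟨h, Rec.of ?_ ?_, by omega, by omega⟩
    · rwa [mul_sub]
    · rwa [mul_sub]
  · exfalso
    rw [h, sub_self, zero_sub, dvd_neg] at hU
    exact SC.ndvd d0 d1 hU
  · right
    refine ⟨h, Rec.of ?_ ?_, by omega, by omega⟩
    · obtain ⟨y, hy⟩ := hU
      obtain ⟨y', hy'⟩ := A.hd
      have hD : A.D = A.q * A.md + A.fd := rfl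
      exact ⟨y + y', by unfold NN at hy ⊢; rw [hD]; linear_combination hy + hy'⟩
    · obtain ⟨y, hy⟩ := hs
      exact ⟨y + A.e, by linear_combination hy⟩

/-- genericity of `2 D` -/
theorem two_D_ne (A : TAp) : 2 * A.D ≠ A.q * A.h := by
  intro h
  have hD : A.D = A.q * A.md + A.fd := rfl
  obtain ⟨y, hy⟩ := A.hd
  have h1 : (A.q : ℤ) ∣ A.a * (2 * A.p) := ⟨2 * A.p * y + A.h, by
    rw [hD] at h
    linear_combination 2 * hy + h⟩
  have h2 := dvd_of A h1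
  have cop : IsCoprime (A.q : ℤ) A.p := by
    obtain ⟨z, hz⟩ := A.hpw
    rcases A.hsg with h | h
    · rw [h] at hz
      exact ⟨-A.w, z, by linear_combination -hz⟩
    · rw [h] at hz
      exact ⟨A.w, -z, by linear_combination hz⟩
  have h3 : (A.q : ℤ) ∣ 2 := cop.dvd_of_dvd_mul_right h2
  have := Int.le_of_dvd (by norm_num) h3
  have := q6 A
  omega

end Pool.Agent.H78.D3
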